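import Mathlib

set_option autoImplicit false

namespace Pool.Agent.H.MP_321d0a_co
open Finset

/-- A pair of integer rank functions forming a perspective; elements outside `E` are loops. -/
@[ext] structure RP (α : Type) [DecidableEq α] where
  E : Finset α
  r : Finset α → ℤ
  s : Finset α → ℤ
  r0 : r ∅ = 0
  s0 : s ∅ = 0
  c1 : ∀ X Y, X ⊆ Y → s X ≤ s Y
  c2 : ∀ X Y, X ⊆ Y → s Y - s X ≤ r Y - r X
  c3 : ∀ X Y, X ⊆ Y → r Y - r X ≤ ((Y ∩ E).card : ℤ) - (X ∩ E).card
  sr : ∀ X Y, r (X ∩ Y) + r (X ∪ Y) ≤ r X + r Y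
  ss : ∀ X Y, s (X ∩ Y) + s (X ∪ Y) ≤ s X + s Y

def sg (z : ℤ) : ℤ := if Even z then 1 else -1

lemma sg_add (a b : ℤ) : sg (a + b) = sg a * sg b := by
  unfold sg
  by_cases ha : Even a <;> by_cases hb : Even b <;> simp [Int.even_add, ha, hb]

lemma sg_zero : sg 0 = 1 := by simp [sg]
lemma sg_one : sg 1 = -1 := by simp [sg]

lemma sg_nat (n : ℕ) : sg n = (-1) ^ n := by
  induction n with
  | zero => simp [sg]
  | succ n ih => push_cast; rw [sg_add, ih, sg_one, pow_succ]

variable {α : Type} [DecidableEq α]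

namespace RP
variable (P : RP α)

lemma mr {X Y : Finset α} (h : X ⊆ Y) : P.r X ≤ P.r Y := by
  have := P.c1 X Y h; have := P.c2 X Y h; omega

lemma ms {X Y : Finset α} (h : X ⊆ Y) : P.s X ≤ P.s Y := P.c1 X Y h

lemma rnn (X : Finset α) : 0 ≤ P.r X := by
  have := P.mr (empty_subset X); have := P.r0; omega

lemma snn (X : Finset α) : 0 ≤ P.s X := by
  have := P.ms (empty_subset X); have := P.s0; omega

lemma sler (X : Finset α) : P.s X ≤ P.r X := by
  have := P.c2 ∅ X (empty_subset X); have := P.r0; have := P.s0; omega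

lemma subr (X Y I U : Finset α) (hI : I ⊆ X ∩ Y) (hU : U ⊆ X ∪ Y) :
    P.r I + P.r U ≤ P.r X + P.r Y := by
  have := P.sr X Y; have := P.mr hI; have := P.mr hU; omega

lemma subs (X Y I U : Finset α) (hI : I ⊆ X ∩ Y) (hU : U ⊆ X ∪ Y) :
    P.s I + P.s U ≤ P.s X + P.s Y := by
  have := P.ss X Y; have := P.ms hI; have := P.ms hU; omega

lemma addr (X Y U : Finset α) (hU : U ⊆ X ∪ Y) : P.r U ≤ P.r X + P.r Y := by
  have := P.subr X Y ∅ U (empty_subset _) hU; have := P.r0; omega

lemma adds (X Y U : Finset α) (hU : U ⊆ X ∪ Y) : P.s U ≤ P.s X + P.s Y := by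
  have := P.subs X Y ∅ U (empty_subset _) hU; have := P.s0; omega

lemma r1 (e : α) : P.r {e} ≤ 1 := by
  have h := P.c3 ∅ {e} (empty_subset _)
  have h2 : (({e} : Finset α) ∩ P.E).card ≤ 1 := by
    calc _ ≤ ({e} : Finset α).card := card_le_card inter_subset_left
      _ = 1 := card_singleton e
  have := P.r0
  simp only [empty_inter, card_empty] at h
  omega

lemma c3' {X Y : Finset α} (h : X ⊆ Y) (hY : Y ⊆ P.E) :
    P.r Y - P.r X ≤ (Y.card : ℤ) - X.card := by
  have := P.c3 X Y h
  rwa [inter_eq_left.2 hY, inter_eq_left.2 (h.trans hY)] at this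

lemma zsub {X A : Finset α} (h : X ⊆ A) (hz : P.r A = P.s A) : P.r X = P.s X := by
  have := P.c2 X A h; have := P.sler X; omega

lemma r_er (e : α) (X : Finset α) : P.r X ≤ P.r (X.erase e) + P.r {e} :=
  P.addr _ _ _ (by intro x; simp only [mem_union, mem_erase, mem_singleton]; tauto)

lemma s_er (e : α) (X : Finset α) : P.s X ≤ P.s (X.erase e) + P.s {e} :=
  P.adds _ _ _ (by intro x; simp only [mem_union, mem_erase, mem_singleton]; tauto)

def res (A : Finset α) : RP α where
  E := P.E ∩ A
  r X := P.r (X ∩ A)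
  s X := P.s (X ∩ A)
  r0 := by simp [P.r0]
  s0 := by simp [P.s0]
  c1 X Y h := P.c1 _ _ (inter_subset_inter_right h)
  c2 X Y h := P.c2 _ _ (inter_subset_inter_right h)
  c3 X Y h := by
    have := P.c3 _ _ (inter_subset_inter_right h : X ∩ A ⊆ Y ∩ A)
    rwa [inter_assoc, inter_assoc, inter_comm A] at this
  sr X Y := P.subr _ _ _ _ (by intro x; simp only [mem_inter]; tauto)
    (by intro x; simp only [mem_inter, mem_union]; tauto)
  ss X Y := P.subs _ _ _ _ (by intro x; simp only [mem_inter]; tauto)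
    (by intro x; simp only [mem_inter, mem_union]; tauto)

def del (e : α) : RP α where
  E := P.E.erase e
  r X := P.r (X.erase e)
  s X := P.s (X.erase e)
  r0 := by simp [P.r0]
  s0 := by simp [P.s0]
  c1 X Y h := P.c1 _ _ (erase_subset_erase e h)
  c2 X Y h := P.c2 _ _ (erase_subset_erase e h)
  c3 X Y h := by
    have := P.c3 _ _ (erase_subset_erase e h)
    have h1 : ∀ Z : Finset α, Z.erase e ∩ P.E = Z ∩ P.E.erase e := by
      intro Z; ext x; simp only [mem_inter, mem_erase]; tauto
    rwa [h1, h1] at this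
  sr X Y := P.subr _ _ _ _ (by intro x; simp only [mem_inter, mem_erase]; tauto)
    (by intro x; simp only [mem_erase, mem_union]; tauto)
  ss X Y := P.subs _ _ _ _ (by intro x; simp only [mem_inter, mem_erase]; tauto)
    (by intro x; simp only [mem_erase, mem_union]; tauto)

lemma card_ins (e : α) (E Z : Finset α) :
    ((insert e Z ∩ E).card : ℤ) = (Z ∩ E.erase e).card + if e ∈ E then 1 else 0 := by
  split_ifs with h
  · have : insert e Z ∩ E = insert e (Z ∩ E.erase e) := by
      ext x; simp only [mem_inter, mem_erase, mem_insert]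
      by_cases hx : x = e
      · subst hx; simp [h]
      · simp [hx]
    rw [this, card_insert_of_notMem (by simp)]; push_cast; ring
  · have : insert e Z ∩ E = Z ∩ E.erase e := by
      ext x; simp only [mem_inter, mem_erase, mem_insert]
      by_cases hx : x = e
      · subst hx; simp [h]
      · simp [hx]
    rw [this]; ring

def con (e : α) : RP α where
  E := P.E.erase e
  r X := P.r (insert e X) - P.r {e}
  s X := P.s (insert e X) - P.s {e}
  r0 := by simp
  s0 := by simp
  c1 X Y h := by have := P.c1 _ _ (insert_subset_insert e h); omega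
  c2 X Y h := by have := P.c2 _ _ (insert_subset_insert e h); omega
  c3 X Y h := by
    have := P.c3 _ _ (insert_subset_insert e h)
    rw [card_ins, card_ins] at this
    omega
  sr X Y := by
    have := P.subr (insert e X) (insert e Y) (insert e (X ∩ Y)) (insert e (X ∪ Y))
      (by intro x; simp only [mem_inter, mem_insert]; tauto)
      (by intro x; simp only [mem_insert, mem_union]; tauto)
    omega
  ss X Y := by
    have := P.subs (insert e X) (insert e Y) (insert e (X ∩ Y)) (insert e (X ∪ Y))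
      (by intro x; simp only [mem_inter, mem_insert]; tauto)
      (by intro x; simp only [mem_insert, mem_union]; tauto)
    omega

lemma card_sd (E X : Finset α) : (((E \ X) ∩ E).card : ℤ) = E.card - (X ∩ E).card := by
  have h1 : (E \ X) ∩ E = E \ X := inter_eq_left.2 sdiff_subset
  have h2 := card_sdiff_add_card_inter E X
  rw [h1, inter_comm X]; omega

lemma card_mod (E X Y : Finset α) :
    (((X ∩ Y) ∩ E).card : ℤ) + ((X ∪ Y) ∩ E).card = (X ∩ E).card + (Y ∩ E).card := by
  have h := card_union_add_card_inter (X ∩ E) (Y ∩ E)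
  have h1 : X ∩ E ∪ Y ∩ E = (X ∪ Y) ∩ E := by
    ext x; simp only [mem_inter, mem_union]; tauto
  have h2 : X ∩ E ∩ (Y ∩ E) = (X ∩ Y) ∩ E := by
    ext x; simp only [mem_inter]; tauto
  rw [h1, h2] at h; omega

def dual : RP α where
  E := P.E
  r X := (X ∩ P.E).card + P.s (P.E \ X) - P.s P.E
  s X := (X ∩ P.E).card + P.r (P.E \ X) - P.r P.E
  r0 := by simp
  s0 := by simp
  c1 X Y h := by
    have := P.c3 _ _ (sdiff_subset_sdiff (Subset.refl P.E) h)
    rw [card_sd, card_sd] at this; omega
  c2 X Y h := by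
    have := P.c2 _ _ (sdiff_subset_sdiff (Subset.refl P.E) h); omega
  c3 X Y h := by
    have := P.c1 _ _ (sdiff_subset_sdiff (Subset.refl P.E) h); omega
  sr X Y := by
    have := P.subs (P.E \ X) (P.E \ Y) (P.E \ (X ∪ Y)) (P.E \ (X ∩ Y))
      (by intro x; simp only [mem_inter, mem_sdiff, mem_union]; tauto)
      (by intro x; simp only [mem_inter, mem_sdiff, mem_union]; tauto)
    have := card_mod P.E X Y
    omega
  ss X Y := by
    have := P.subr (P.E \ X) (P.E \ Y) (P.E \ (X ∪ Y)) (P.E \ (X ∩ Y))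
      (by intro x; simp only [mem_inter, mem_sdiff, mem_union]; tauto)
      (by intro x; simp only [mem_inter, mem_sdiff, mem_union]; tauto)
    have := card_mod P.E X Y
    omega

lemma del_dual (e : α) (he : e ∈ P.E) : (P.del e).dual = P.dual.con e := by
  have h1 : ∀ X : Finset α, (P.E.erase e \ X).erase e = P.E \ insert e X := by
    intro X; ext x; simp only [mem_sdiff, mem_erase, mem_insert]; tauto
  have h2 : P.E \ {e} = P.E.erase e := sdiff_singleton_eq_erase e _
  have h3 : ({e} : Finset α) ∩ P.E = {e} := inter_eq_left.2 (by simpa using he)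
  ext X
  · rfl
  · simp only [del, dual, con, h1, h2, h3, card_ins, if_pos he, erase_idem, card_singleton]
    push_cast; ring
  · simp only [del, dual, con, h1, h2, h3, card_ins, if_pos he, erase_idem, card_singleton]
    push_cast; ring

lemma con_dual (e : α) (he : e ∈ P.E) : (P.con e).dual = P.dual.del e := by
  have h1 : ∀ X : Finset α, insert e (P.E.erase e \ X) = P.E \ X.erase e := by
    intro X; ext x; simp only [mem_sdiff, mem_erase, mem_insert]
    by_cases hx : x = e
    · subst hx; simp [he]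
    · simp [hx]
  have h2 : ∀ Z : Finset α, Z.erase e ∩ P.E = Z ∩ P.E.erase e := by
    intro Z; ext x; simp only [mem_inter, mem_erase]; tauto
  ext X
  · rfl
  · simp only [del, dual, con, h1, h2, insert_erase he]; ring
  · simp only [del, dual, con, h1, h2, insert_erase he]; ring

def F : ℤ := ∑ X ∈ P.E.powerset, sg (P.s P.E - P.s X + X.card - P.r X)
def dr : ℤ := P.r P.E - P.s P.E
def Fac (A : Finset α) : Prop :=
  A ⊆ P.E ∧ P.r A + P.r (P.E \ A) = P.r P.E ∧ P.s A + P.s (P.E \ A) = P.s P.E
def ZF (A : Finset α) : Prop := P.Fac A ∧ A.Nonempty ∧ P.r A = P.s A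
def Conn : Prop := P.E.Nonempty ∧ ∀ A, P.Fac A → A.Nonempty → A = P.E

lemma rec_F (e : α) (he : e ∈ P.E) :
    P.F = sg (P.s P.E - P.s (P.E.erase e)) * (P.del e).F + sg (1 - P.r {e}) * (P.con e).F := by
  unfold F
  have h : P.E.powerset = (insert e (P.E.erase e)).powerset := by rw [insert_erase he]
  rw [h, sum_powerset_insert (notMem_erase e _), mul_sum, mul_sum]
  congr 1
  · refine sum_congr rfl fun X hX => ?_
    have hX' : e ∉ X := fun h => notMem_erase e _ (mem_powerset.1 hX h)
    rw [← sg_add]; congr 1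
    simp only [del, erase_idem, erase_eq_of_notMem hX']; ring
  · refine sum_congr rfl fun X hX => ?_
    have hX' : e ∉ X := fun h => notMem_erase e _ (mem_powerset.1 hX h)
    rw [← sg_add]; congr 1
    simp only [con, insert_erase he, card_insert_of_notMem hX']; push_cast; ring

lemma F_dual : P.dual.F = P.F := by
  unfold F
  refine sum_nbij' (fun X => P.E \ X) (fun X => P.E \ X) ?_ ?_ ?_ ?_ ?_
  · intro X _; simp [dual]
  · intro X _; simp [dual]
  · intro X hX; exact Finset.sdiff_sdiff_eq_self (mem_powerset.1 hX)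
  · intro X hX; exact Finset.sdiff_sdiff_eq_self (mem_powerset.1 hX)
  · intro X hX
    have hX' : X ⊆ P.E := mem_powerset.1 hX
    congr 1
    have := card_sdiff_add_card_eq_card hX'
    simp only [dual, inter_self, sdiff_self, inter_eq_left.2 hX', bot_eq_empty, P.r0]
    omega

lemma dr_dual : P.dual.dr = P.dr := by
  simp only [dr, dual, sdiff_self, bot_eq_empty, P.r0, P.s0]; ring

lemma fac_dual (A : Finset α) : P.dual.Fac A ↔ P.Fac A := by
  unfold Fac
  refine and_congr_right fun hA => ?_
  have hA' : A ⊆ P.E := hA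
  have := card_sdiff_add_card_eq_card hA'
  simp only [dual, inter_self, sdiff_self, inter_eq_left.2 hA', bot_eq_empty, P.r0, P.s0,
    Finset.sdiff_sdiff_eq_self hA', inter_eq_left.2 (sdiff_subset : P.E \ A ⊆ P.E)]
  omega

lemma zf_dual (A : Finset α) : P.dual.ZF A ↔ P.ZF A := by
  unfold ZF
  rw [fac_dual]
  refine and_congr_right fun hA => and_congr_right fun _ => ?_
  obtain ⟨_, h1, h2⟩ := hA
  simp only [dual]; omega

lemma conn_dual : P.dual.Conn ↔ P.Conn := by
  unfold Conn; simp only [fac_dual]; rfl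

lemma fac_del (e : α) (A : Finset α) : (P.del e).Fac A ↔ A ⊆ P.E.erase e ∧
    P.r A + P.r (P.E.erase e \ A) = P.r (P.E.erase e) ∧
    P.s A + P.s (P.E.erase e \ A) = P.s (P.E.erase e) := by
  unfold Fac
  refine and_congr_right fun hA => ?_
  have h1 : e ∉ A := fun h => notMem_erase e _ (hA h)
  have h2 : e ∉ P.E.erase e \ A := by simp
  simp only [del, erase_idem, erase_eq_of_notMem h1, erase_eq_of_notMem h2]

lemma fac_con (e : α) (he : e ∈ P.E) (A : Finset α) : (P.con e).Fac A ↔ A ⊆ P.E.erase e ∧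
    P.r (insert e A) + P.r (P.E \ A) = P.r P.E + P.r {e} ∧
    P.s (insert e A) + P.s (P.E \ A) = P.s P.E + P.s {e} := by
  unfold Fac
  refine and_congr_right fun hA => ?_
  have h1 : e ∉ A := fun h => notMem_erase e _ (hA h)
  have h2 : insert e (P.E.erase e \ A) = P.E \ A := by
    ext x; simp only [mem_sdiff, mem_erase, mem_insert]
    by_cases hx : x = e
    · subst hx; simp [he, h1]
    · simp [hx]
  simp only [con, insert_erase he, h2]; omega

lemma zf_del (e : α) (A : Finset α) : (P.del e).ZF A ↔ (A ⊆ P.E.erase e ∧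
    P.r A + P.r (P.E.erase e \ A) = P.r (P.E.erase e) ∧
    P.s A + P.s (P.E.erase e \ A) = P.s (P.E.erase e)) ∧ A.Nonempty ∧ P.r A = P.s A := by
  unfold ZF
  rw [fac_del]
  refine and_congr_right fun hA => ?_
  have h1 : e ∉ A := fun h => notMem_erase e _ (hA.1 h)
  simp only [del, erase_eq_of_notMem h1]

lemma zf_con (e : α) (he : e ∈ P.E) (A : Finset α) : (P.con e).ZF A ↔ (A ⊆ P.E.erase e ∧
    P.r (insert e A) + P.r (P.E \ A) = P.r P.E + P.r {e} ∧
    P.s (insert e A) + P.s (P.E \ A) = P.s P.E + P.s {e}) ∧ A.Nonempty ∧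
    P.r (insert e A) - P.r {e} = P.s (insert e A) - P.s {e} := by
  unfold ZF
  rw [fac_con _ _ he]; rfl

lemma dr_del (e : α) : (P.del e).dr = P.r (P.E.erase e) - P.s (P.E.erase e) := by
  simp only [dr, del, erase_idem]

lemma dr_con (e : α) (he : e ∈ P.E) :
    (P.con e).dr = P.r P.E - P.s P.E - (P.r {e} - P.s {e}) := by
  simp only [dr, con, insert_erase he]; ring

lemma loop_F (e : α) (he : e ∈ P.E) (h : P.r {e} = 0) : P.F = 0 := by
  have hs : P.s {e} = 0 := by have := P.sler {e}; have := P.snn {e}; omega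
  have heq : P.con e = P.del e := by
    ext X
    · rfl
    · have h1 := P.r_er e (insert e X)
      have h2 := P.mr (show X.erase e ⊆ insert e X from (erase_subset _ _).trans (subset_insert _ _))
      rw [erase_insert_eq_erase] at h1
      simp only [con, del]; omega
    · have h1 := P.s_er e (insert e X)
      have h2 := P.ms (show X.erase e ⊆ insert e X from (erase_subset _ _).trans (subset_insert _ _))
      rw [erase_insert_eq_erase] at h1
      simp only [con, del]; omega
  have h1 := P.s_er e P.E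
  have h2 := P.ms (erase_subset e P.E)
  rw [P.rec_F e he, heq, h, show P.s P.E - P.s (P.E.erase e) = 0 by omega, sub_zero, sg_zero, sg_one]
  ring

lemma dual_r1 (e : α) (he : e ∈ P.E) : P.dual.r {e} = 1 + P.s (P.E.erase e) - P.s P.E := by
  have h3 : ({e} : Finset α) ∩ P.E = {e} := inter_eq_left.2 (by simpa using he)
  simp only [dual, h3, sdiff_singleton_eq_erase, card_singleton]; rfl

lemma dual_s1 (e : α) (he : e ∈ P.E) : P.dual.s {e} = 1 + P.r (P.E.erase e) - P.r P.E := by
  have h3 : ({e} : Finset α) ∩ P.E = {e} := inter_eq_left.2 (by simpa using he)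
  simp only [dual, h3, sdiff_singleton_eq_erase, card_singleton]; rfl

lemma coloop_F (e : α) (he : e ∈ P.E) (h : P.s (P.E.erase e) ≠ P.s P.E) : P.F = 0 := by
  rw [← P.F_dual]
  apply P.dual.loop_F e he
  rw [P.dual_r1 e he]
  have h1 := P.s_er e P.E
  have h2 := P.ms (erase_subset e P.E)
  have := P.sler {e}; have := P.r1 e
  omega

lemma rec_F' (e : α) (he : e ∈ P.E) (h1 : P.r {e} ≠ 0) (h2 : P.s (P.E.erase e) = P.s P.E) :
    P.F = (P.del e).F + (P.con e).F := by
  have := P.r1 e; have := P.rnn {e}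
  rw [P.rec_F e he, h2, show 1 - P.r {e} = 0 by omega, sub_self, sg_zero]; ring

lemma F_empty (h : P.E = ∅) : P.F = 1 := by
  unfold F; rw [h]; simp [P.r0, sg]

end RP

lemma F_nn : ∀ (n : ℕ) (P : RP α), P.E.card = n → 0 ≤ P.F := by
  intro n
  induction n with
  | zero => intro P h; rw [P.F_empty (card_eq_zero.1 h)]; norm_num
  | succ n ih =>
    intro P h
    obtain ⟨e, he⟩ : P.E.Nonempty := card_pos.1 (by omega)
    by_cases h1 : P.r {e} = 0
    · rw [P.loop_F e he h1]
    by_cases h2 : P.s (P.E.erase e) = P.s P.E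
    · rw [P.rec_F' e he h1 h2]
      have hc : (P.E.erase e).card = n := by rw [card_erase_of_mem he]; omega
      have := ih (P.del e) hc
      have := ih (P.con e) hc
      omega
    · rw [P.coloop_F e he h2]

lemma RP.Fnn (P : RP α) : 0 ≤ P.F := F_nn _ P rfl

lemma F_zero : ∀ (n : ℕ) (P : RP α), P.E.card = n + 1 → P.dr = 0 → P.F = 0 := by
  intro n
  induction n with
  | zero =>
    intro P h hd
    obtain ⟨e, he⟩ := card_eq_one.1 h
    have he' : e ∈ P.E := by rw [he]; simp
    by_cases h1 : P.r {e} = 0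
    · exact P.loop_F e he' h1
    · apply P.coloop_F e he'
      unfold RP.dr at hd
      rw [he] at hd ⊢
      simp only [erase_singleton, P.s0]; omega
  | succ n ih =>
    intro P h hd
    obtain ⟨e, he⟩ : P.E.Nonempty := card_pos.1 (by omega)
    by_cases h1 : P.r {e} = 0
    · rw [P.loop_F e he h1]
    by_cases h2 : P.s (P.E.erase e) = P.s P.E
    · rw [P.rec_F' e he h1 h2]
      have hc : (P.E.erase e).card = n + 1 := by rw [card_erase_of_mem he]; omega
      have hz : P.r P.E = P.s P.E := by unfold RP.dr at hd; omega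
      have h3 := P.zsub (erase_subset e P.E) hz
      have h4 := P.zsub (singleton_subset_iff.2 he) hz
      rw [ih (P.del e) hc (by rw [P.dr_del]; omega), ih (P.con e) hc (by rw [P.dr_con e he]; omega)]
      rfl
    · rw [P.coloop_F e he h2]

end Pool.Agent.H.MP_321d0a_co
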