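import Mathlib
import Pool.Agent.H.MP_321d0a_co.A

set_option autoImplicit false

namespace Pool.Agent.H.MP_321d0a_co
open Finset

variable {α : Type} [DecidableEq α]

namespace RP
variable (P : RP α)

lemma sep_r {A : Finset α} (h : P.r A + P.r (P.E \ A) = P.r P.E) (X : Finset α) (hX : X ⊆ P.E)
    (hA : A ⊆ P.E) : P.r X = P.r (X ∩ A) + P.r (X \ A) := by
  have h1 := P.addr (X ∩ A) (X \ A) X
    (by intro x; simp only [mem_union, mem_inter, mem_sdiff]; tauto)
  have h2 := P.sr X A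
  have h3 := P.subr (X ∪ A) (P.E \ A) (X \ A) P.E
    (by intro x; have := @hX x; simp only [mem_union, mem_inter, mem_sdiff]; tauto)
    (by intro x; simp only [mem_union, mem_sdiff]; tauto)
  omega

lemma sep_s {A : Finset α} (h : P.s A + P.s (P.E \ A) = P.s P.E) (X : Finset α) (hX : X ⊆ P.E)
    (hA : A ⊆ P.E) : P.s X = P.s (X ∩ A) + P.s (X \ A) := by
  have h1 := P.adds (X ∩ A) (X \ A) X
    (by intro x; simp only [mem_union, mem_inter, mem_sdiff]; tauto)
  have h2 := P.ss X A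
  have h3 := P.subs (X ∪ A) (P.E \ A) (X \ A) P.E
    (by intro x; have := @hX x; simp only [mem_union, mem_inter, mem_sdiff]; tauto)
    (by intro x; simp only [mem_union, mem_sdiff]; tauto)
  omega

lemma fac_compl {A : Finset α} (h : P.Fac A) : P.Fac (P.E \ A) := by
  obtain ⟨h0, h1, h2⟩ := h
  refine ⟨sdiff_subset, ?_, ?_⟩ <;> rw [Finset.sdiff_sdiff_eq_self h0] <;> omega

lemma res_E {A : Finset α} (h : A ⊆ P.E) : (P.res A).E = A := inter_eq_right.2 h

lemma dr_res {A : Finset α} (h : A ⊆ P.E) : (P.res A).dr = P.r A - P.s A := by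
  unfold dr; rw [P.res_E h]; simp [res]

lemma mul_F {A : Finset α} (h : P.Fac A) : P.F = (P.res A).F * (P.res (P.E \ A)).F := by
  obtain ⟨h0, h1, h2⟩ := h
  unfold F
  rw [P.res_E h0, P.res_E sdiff_subset, sum_mul_sum, ← sum_product']
  refine sum_nbij' (fun X => (X ∩ A, X \ A)) (fun p => p.1 ∪ p.2) ?_ ?_ ?_ ?_ ?_
  · intro X hX
    have hX' : X ⊆ P.E := mem_powerset.1 hX
    simp only [mem_product, mem_powerset]
    exact ⟨inter_subset_right, sdiff_subset_sdiff hX' (Subset.refl _)⟩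
  · intro p hp
    simp only [mem_product, mem_powerset] at hp ⊢
    exact union_subset (hp.1.trans h0) (hp.2.trans sdiff_subset)
  · intro X _
    ext x; simp only [mem_union, mem_inter, mem_sdiff]; tauto
  · intro p hp
    simp only [mem_product, mem_powerset] at hp
    obtain ⟨hp1, hp2⟩ := hp
    ext x
    · have := @hp1 x; have := @hp2 x
      simp only [mem_union, mem_inter, mem_sdiff] at *; tauto
    · have := @hp1 x; have := @hp2 x
      simp only [mem_union, mem_inter, mem_sdiff] at *; tauto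
  · intro X hX
    have hX' : X ⊆ P.E := mem_powerset.1 hX
    rw [← sg_add]; congr 1
    have e1 : X ∩ A ∩ A = X ∩ A := by rw [inter_assoc, inter_self]
    have e2 : (X \ A) ∩ (P.E \ A) = X \ A :=
      inter_eq_left.2 (sdiff_subset_sdiff hX' (Subset.refl _))
    have := P.sep_r h1 X hX' h0
    have := P.sep_s h2 X hX' h0
    have := card_sdiff_add_card_inter X A
    simp only [res, inter_self, e1, e2]
    omega

lemma fac_lift {A C : Finset α} (h : P.Fac A) (hC : (P.res A).Fac C) :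
    P.Fac C ∧ C ⊆ A ∧ (P.res A).r C = P.r C ∧ (P.res A).s C = P.s C := by
  obtain ⟨h0, h1, h2⟩ := h
  obtain ⟨c0, c1, c2⟩ := hC
  rw [P.res_E h0] at c0 c1 c2
  have e1 : C ∩ A = C := inter_eq_left.2 c0
  have e2 : (A \ C) ∩ A = A \ C := inter_eq_left.2 sdiff_subset
  simp only [res, inter_self, e1, e2] at c1 c2 ⊢
  have e3 : (P.E \ C) ∩ A = A \ C := by
    ext x; have := @h0 x; simp only [mem_inter, mem_sdiff]; tauto
  have e4 : (P.E \ C) \ A = P.E \ A := by
    ext x; have := @c0 x; simp only [mem_sdiff]; tauto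
  have := P.sep_r h1 (P.E \ C) sdiff_subset h0
  have := P.sep_s h2 (P.E \ C) sdiff_subset h0
  rw [e3, e4] at *
  exact ⟨⟨c0.trans h0, by omega, by omega⟩, c0, trivial, trivial⟩

lemma fac_of_le {X : Finset α} (hX : X ⊆ P.E) (h1 : P.r X + P.r (P.E \ X) ≤ P.r P.E)
    (h2 : P.s X + P.s (P.E \ X) ≤ P.s P.E) : P.Fac X := by
  have := P.addr X (P.E \ X) P.E (by intro x; simp only [mem_union, mem_sdiff]; tauto)
  have := P.adds X (P.E \ X) P.E (by intro x; simp only [mem_union, mem_sdiff]; tauto)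
  exact ⟨hX, by omega, by omega⟩

lemma conn_empty (hc : P.Conn) {X : Finset α} {e : α} (he : e ∈ P.E) (hX : X ⊆ P.E.erase e)
    (h1 : P.r X + P.r (P.E \ X) ≤ P.r P.E) (h2 : P.s X + P.s (P.E \ X) ≤ P.s P.E) : X = ∅ := by
  by_contra hne
  have := hc.2 X (P.fac_of_le (hX.trans (erase_subset _ _)) h1 h2) (nonempty_iff_ne_empty.2 hne)
  rw [this] at hX
  exact notMem_erase e _ (hX he)

lemma conn_single (hc : P.Conn) (h2 : 2 ≤ P.E.card) {e : α} (he : e ∈ P.E)
    (h1 : P.r {e} + P.r (P.E.erase e) ≤ P.r P.E) (h3 : P.s {e} + P.s (P.E.erase e) ≤ P.s P.E) :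
    False := by
  have := hc.2 {e} (P.fac_of_le (singleton_subset_iff.2 he) (by rwa [sdiff_singleton_eq_erase])
    (by rwa [sdiff_singleton_eq_erase])) (singleton_nonempty e)
  rw [← this] at h2; simp at h2

lemma no_loop (hc : P.Conn) (h2 : 2 ≤ P.E.card) {e : α} (he : e ∈ P.E) : P.r {e} = 1 := by
  by_contra h
  have := P.r1 e; have := P.rnn {e}; have := P.sler {e}
  have := P.mr (erase_subset e P.E); have := P.ms (erase_subset e P.E)
  exact P.conn_single hc h2 he (by omega) (by omega)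

lemma no_coloop (hc : P.Conn) (h2 : 2 ≤ P.E.card) {e : α} (he : e ∈ P.E) :
    P.s (P.E.erase e) = P.s P.E := by
  have := P.dual.no_loop (P.conn_dual.2 hc) h2 he
  rw [P.dual_r1 e he] at this; omega

lemma not_conn {P : RP α} (hne : P.E.Nonempty) (h : ¬ P.Conn) :
    ∃ A, P.Fac A ∧ A.Nonempty ∧ (P.E \ A).Nonempty := by
  unfold Conn at h
  push Not at h
  obtain ⟨A, h1, h2, h3⟩ := h hne
  refine ⟨A, h1, h2, ?_⟩
  rw [sdiff_nonempty]
  exact fun h4 => h3 (Subset.antisymm h1.1 h4)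

lemma er_ne (h2 : 2 ≤ P.E.card) {e : α} (he : e ∈ P.E) : (P.E.erase e).Nonempty := by
  rw [← card_pos, card_erase_of_mem he]; omega

/-- a loop of the quotient: the deletion has no zero factor -/
lemma loop_nozf (hc : P.Conn) {e : α} (he : e ∈ P.E) (h : P.s {e} = 0) (A : Finset α) :
    ¬ (P.del e).ZF A := by
  rw [zf_del]
  rintro ⟨⟨h0, _, h2⟩, hne, hz⟩
  have h3 := P.s_er e (P.E \ A)
  have e1 : (P.E \ A).erase e = P.E.erase e \ A := by
    ext x; simp only [mem_sdiff, mem_erase]; tauto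
  rw [e1] at h3
  have h4 := P.ms (erase_subset e P.E)
  have h5 := P.c2 (P.E \ A) P.E sdiff_subset
  have := P.conn_empty hc he h0 (by omega) (by omega)
  exact hne.ne_empty this

/-- Bixby-Coullard type inequalities -/
lemma bc {e : α} (he : e ∈ P.E) {A C : Finset α} (hA : A ⊆ P.E.erase e) (hC : C ⊆ P.E.erase e) :
    (P.r (A ∩ C) + P.r (P.E \ (A ∩ C)) + (P.r ((P.E.erase e \ A) \ C) +
      P.r (P.E \ ((P.E.erase e \ A) \ C))) ≤
      P.r A + P.r (P.E.erase e \ A) + (P.r (insert e C) + P.r (P.E \ C))) ∧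
    (P.s (A ∩ C) + P.s (P.E \ (A ∩ C)) + (P.s ((P.E.erase e \ A) \ C) +
      P.s (P.E \ ((P.E.erase e \ A) \ C))) ≤
      P.s A + P.s (P.E.erase e \ A) + (P.s (insert e C) + P.s (P.E \ C))) := by
  have i1 : A ∩ C ⊆ A ∩ insert e C := by
    intro x; simp only [mem_inter, mem_insert]; tauto
  have i2 : P.E \ ((P.E.erase e \ A) \ C) ⊆ A ∪ insert e C := by
    intro x; simp only [mem_union, mem_insert, mem_sdiff, mem_erase]; tauto
  have i3 : (P.E.erase e \ A) \ C ⊆ (P.E.erase e \ A) ∩ (P.E \ C) := by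
    intro x; simp only [mem_inter, mem_sdiff, mem_erase]; tauto
  have i4 : P.E \ (A ∩ C) ⊆ (P.E.erase e \ A) ∪ (P.E \ C) := by
    intro x; have := @hC x
    simp only [mem_union, mem_inter, mem_sdiff, mem_erase] at *; tauto
  have := P.subr _ _ _ _ i1 i2
  have := P.subr _ _ _ _ i3 i4
  have := P.subs _ _ _ _ i1 i2
  have := P.subs _ _ _ _ i3 i4
  omega

lemma con_compl {e : α} (he : e ∈ P.E) {C : Finset α} (h : (P.con e).Fac C) :
    (P.con e).Fac (P.E.erase e \ C) := (P.con e).fac_compl h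

lemma lam_nn (X : Finset α) : P.r P.E ≤ P.r X + P.r (P.E \ X) ∧ P.s P.E ≤ P.s X + P.s (P.E \ X) :=
  ⟨P.addr X (P.E \ X) P.E (by intro x; simp only [mem_union, mem_sdiff]; tauto),
   P.adds X (P.E \ X) P.E (by intro x; simp only [mem_union, mem_sdiff]; tauto)⟩

lemma loop_aux (hc : P.Conn) {e : α} (he : e ∈ P.E) (h : P.s {e} = 0) {A C : Finset α}
    (hA : (P.del e).Fac A) (hC : (P.con e).Fac C) :
    A ∩ C = ∅ ∨ (P.E.erase e \ A) \ C = ∅ := by
  rw [fac_del] at hA
  rw [fac_con _ _ he] at hC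
  obtain ⟨a0, a1, a2⟩ := hA
  obtain ⟨c0, c1, c2⟩ := hC
  obtain ⟨b1, b2⟩ := P.bc he a0 c0
  have := P.lam_nn (A ∩ C)
  have := P.lam_nn ((P.E.erase e \ A) \ C)
  have := P.mr (erase_subset e P.E); have := P.ms (erase_subset e P.E)
  have := P.r1 e
  by_cases h1 : P.r (A ∩ C) + P.r (P.E \ (A ∩ C)) ≤ P.r P.E
  · left
    exact P.conn_empty hc he (inter_subset_left.trans a0) h1 (by omega)
  · right
    exact P.conn_empty hc he (sdiff_subset.trans sdiff_subset) (by omega) (by omega)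

lemma loop_conn (hc : P.Conn) (h2 : 2 ≤ P.E.card) {e : α} (he : e ∈ P.E) (h : P.s {e} = 0) :
    (P.del e).Conn ∨ (P.con e).Conn := by
  by_contra hn
  push Not at hn
  obtain ⟨A, a1, a2, a3⟩ := not_conn (P := P.del e) (P.er_ne h2 he) hn.1
  obtain ⟨C, c1, c2, c3⟩ := not_conn (P := P.con e) (P.er_ne h2 he) hn.2
  have h1 := P.loop_aux hc he h a1 c1
  have h3 := P.loop_aux hc he h a1 (P.con_compl he c1)
  have a0 : A ⊆ P.E.erase e := a1.1
  have c0 : C ⊆ P.E.erase e := c1.1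
  obtain ⟨a, ha⟩ := a2
  obtain ⟨b, hb⟩ : (P.E.erase e \ A).Nonempty := a3
  obtain ⟨c, hc'⟩ := c2
  obtain ⟨d, hd⟩ : (P.E.erase e \ C).Nonempty := c3
  have := a0 ha; have := c0 hc'
  simp only [eq_empty_iff_forall_notMem, mem_inter, mem_sdiff] at h1 h3 hb hd
  rcases h1 with h1 | h1 <;> rcases h3 with h3 | h3
  · have := h1 a; have := h3 a; tauto
  · have := h1 c; have := h3 c; tauto
  · have := h1 d; have := h3 d; tauto
  · have := h1 b; have := h3 b; tauto

lemma zf_aux (hc : P.Conn) {e : α} (he : e ∈ P.E) (hr : P.r (P.E.erase e) = P.r P.E)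
    {A C : Finset α}
    (hA : (P.del e).ZF A) (hC : (P.con e).Fac C) :
    A ∩ C = ∅ ∨ (P.E.erase e \ A) \ C = ∅ := by
  rw [zf_del] at hA
  rw [fac_con _ _ he] at hC
  obtain ⟨⟨a0, a1, a2⟩, _, hz⟩ := hA
  obtain ⟨c0, c1, c2⟩ := hC
  obtain ⟨b1, b2⟩ := P.bc he a0 c0
  have := P.lam_nn (A ∩ C)
  have := P.lam_nn ((P.E.erase e \ A) \ C)
  have := P.mr (erase_subset e P.E); have := P.ms (erase_subset e P.E)
  have := P.r1 e; have := P.sler {e}
  have z1 := P.zsub (inter_subset_left : A ∩ C ⊆ A) hz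
  have z2 := P.zsub (sdiff_subset : A \ C ⊆ A) hz
  have l1 := P.c2 (P.E \ (A ∩ C)) P.E sdiff_subset
  have hsub : (P.E \ (A ∩ C)).erase e ⊆ P.E.erase e := erase_subset_erase e sdiff_subset
  have l2 := P.c2 _ _ (erase_subset e (P.E \ (A ∩ C)))
  have s1 := (P.del e).sep_r ((P.fac_del e A).2 ⟨a0, a1, a2⟩).2.1 _ hsub a0
  have s2 := (P.del e).sep_s ((P.fac_del e A).2 ⟨a0, a1, a2⟩).2.2 _ hsub a0
  have e1 : ((P.E \ (A ∩ C)).erase e ∩ A).erase e = A \ C := by
    ext x; have := @a0 x; simp only [mem_inter, mem_sdiff, mem_erase] at *; tauto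
  have e2 : ((P.E \ (A ∩ C)).erase e \ A).erase e = P.E.erase e \ A := by
    ext x; simp only [mem_inter, mem_sdiff, mem_erase]; tauto
  simp only [del, erase_idem, e1, e2] at s1 s2
  by_cases h1 : P.s (A ∩ C) + P.s (P.E \ (A ∩ C)) ≤ P.s P.E
  · left
    exact P.conn_empty hc he (inter_subset_left.trans a0) (by omega) h1
  · right
    exact P.conn_empty hc he (sdiff_subset.trans sdiff_subset) (by omega) (by omega)

lemma zf_conn (hc : P.Conn) (h2 : 2 ≤ P.E.card) (hk : P.dr ≠ 0) {e : α} (he : e ∈ P.E)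
    (hr : P.r (P.E.erase e) = P.r P.E) {A : Finset α} (hA : (P.del e).ZF A) :
    (P.con e).Conn := by
  by_contra hn
  obtain ⟨C, c1, c2, c3⟩ := not_conn (P := P.con e) (P.er_ne h2 he) hn
  have h1 := P.zf_aux hc he hr hA c1
  have h3 := P.zf_aux hc he hr hA (P.con_compl he c1)
  rw [zf_del] at hA
  obtain ⟨⟨a0, a1, a2⟩, ⟨a, ha⟩, hz⟩ := hA
  have c0 : C ⊆ P.E.erase e := c1.1
  obtain ⟨b, hb⟩ : (P.E.erase e \ A).Nonempty := by
    rw [nonempty_iff_ne_empty]
    intro h0
    rw [h0, P.r0] at a1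
    rw [h0, P.s0] at a2
    have := P.no_coloop hc h2 he
    unfold dr at hk; omega
  obtain ⟨c, hc'⟩ := c2
  obtain ⟨d, hd⟩ : (P.E.erase e \ C).Nonempty := c3
  have := a0 ha; have := c0 hc'
  simp only [eq_empty_iff_forall_notMem, mem_inter, mem_sdiff] at h1 h3 hb hd
  rcases h1 with h1 | h1 <;> rcases h3 with h3 | h3
  · have := h1 a; have := h3 a; tauto
  · have := h1 c; have := h3 c; tauto
  · have := h1 d; have := h3 d; tauto
  · have := h1 b; have := h3 b; tauto

lemma zf_conn' (hc : P.Conn) (h2 : 2 ≤ P.E.card) (hk : P.dr ≠ 0) {e : α} (he : e ∈ P.E)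
    (hs : P.s {e} ≠ 0) {A : Finset α} (hA : (P.con e).ZF A) : (P.del e).Conn := by
  rw [← conn_dual, P.del_dual e he]
  refine P.dual.zf_conn (P.conn_dual.2 hc) h2 (by rwa [dr_dual]) he ?_ (A := A) ?_
  · have h1 := P.dual.dual_s1 e he
    have h3 : P.dual.dual.s {e} = P.s {e} := by
      have e1 : P.E \ (P.E \ {e}) = {e} := Finset.sdiff_sdiff_eq_self (singleton_subset_iff.2 he)
      have e2 := card_sdiff_add_card_eq_card (singleton_subset_iff.2 he)
      have e3 : ({e} : Finset α) ∩ P.E = {e} := inter_eq_left.2 (by simpa using he)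
      simp only [dual, e1, e3, inter_self, sdiff_self, bot_eq_empty, P.s0,
        inter_eq_left.2 (sdiff_subset : P.E \ {e} ⊆ P.E)]
      omega
    have := P.sler {e}; have := P.r1 e; have := P.snn {e}
    omega
  · rw [← P.con_dual e he, zf_dual]; exact hA

end RP

/-- bound for perspectives without a zero factor -/
def NZ (P : RP α) : Prop := ∀ k : ℕ, P.dr = k → (∀ A, ¬ P.ZF A) → (2 : ℤ) ^ k ≤ P.F ∧
  (P.F = 2 ^ k → ∀ x ∈ P.E, ∃ A, P.Fac A ∧ x ∈ A ∧ P.r A - P.s A = 1)

/-- bound for connected perspectives -/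
def CB (P : RP α) : Prop := ∀ k : ℕ, P.dr = k → P.Conn → (2 : ℤ) ^ (k + 1) - 2 ≤ P.F

lemma step_loop (P : RP α) (ih : ∀ Q : RP α, Q.E.card < P.E.card → NZ Q ∧ CB Q)
    (hc : P.Conn) (h2 : 2 ≤ P.E.card) {e : α} (he : e ∈ P.E) (h : P.s {e} = 0) (k : ℕ)
    (hk : P.dr = k) : (2 : ℤ) ^ (k + 1) - 2 ≤ P.F := by
  have hlt : (P.E.erase e).card < P.E.card := card_erase_lt_of_mem he
  have h1 := P.no_loop hc h2 he
  have h3 := P.no_coloop hc h2 he
  have h4 : P.r (P.E.erase e) = P.r P.E := by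
    by_contra h5
    have := P.mr (erase_subset e P.E)
    exact P.conn_single hc h2 he (by omega) (by omega)
  have hF := P.rec_F' e he (by omega) h3
  have d1 : (P.del e).dr = k := by rw [P.dr_del]; unfold RP.dr at hk; omega
  have := (P.del e).Fnn; have := (P.con e).Fnn
  rcases P.loop_conn hc h2 he h with h6 | h6
  · have := (ih (P.del e) hlt).2 k d1 h6; omega
  · rcases k with _ | k
    · simp; omega
    · have d2 : (P.con e).dr = k := by
        rw [P.dr_con e he]; unfold RP.dr at hk; push_cast at hk; omega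
      have := (ih (P.con e) hlt).2 k d2 h6
      have := ((ih (P.del e) hlt).1 (k + 1) d1 (P.loop_nozf hc he h)).1
      rw [pow_succ 2 (k + 1)]; omega

lemma main_ind : ∀ (n : ℕ) (P : RP α), P.E.card = n → NZ P ∧ CB P := by
  intro n
  induction n using Nat.strong_induction_on with
  | _ n ih0 =>
  intro P hn
  have ih : ∀ Q : RP α, Q.E.card < P.E.card → NZ Q ∧ CB Q :=
    fun Q hQ => ih0 _ (hn ▸ hQ) Q rfl
  have hcb : CB P := by
    intro k hk hc
    rcases k with _ | k
    · simpa using P.Fnn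
    have hk0 : P.dr ≠ 0 := by rw [hk]; omega
    by_cases h2 : 2 ≤ P.E.card
    · by_cases h3 : ∃ e ∈ P.E, P.s {e} = 0
      · obtain ⟨e, he, h⟩ := h3
        exact step_loop P ih hc h2 he h _ hk
      by_cases h4 : ∃ e ∈ P.E, P.dual.s {e} = 0
      · obtain ⟨e, he, h⟩ := h4
        rw [← P.F_dual]
        exact step_loop P.dual ih (P.conn_dual.2 hc) h2 he h _ (by rw [P.dr_dual, hk])
      push Not at h3 h4
      obtain ⟨e, he⟩ := hc.1
      have hlt : (P.E.erase e).card < P.E.card := card_erase_lt_of_mem he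
      have h1 := P.no_loop hc h2 he
      have h5 := P.no_coloop hc h2 he
      have h6 := h3 e he
      have h7 := h4 e he
      rw [P.dual_s1 e he] at h7
      have := P.mr (erase_subset e P.E); have := P.r_er e P.E
      have := P.sler {e}; have := P.snn {e}
      have hF := P.rec_F' e he (by omega) h5
      have d1 : (P.del e).dr = (k + 1 : ℕ) := by rw [P.dr_del]; unfold RP.dr at hk; omega
      have d2 : (P.con e).dr = (k + 1 : ℕ) := by rw [P.dr_con e he]; unfold RP.dr at hk; omega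
      have := (P.del e).Fnn; have := (P.con e).Fnn
      by_cases z1 : ∃ A, (P.del e).ZF A
      · obtain ⟨A, hA⟩ := z1
        have := (ih (P.con e) hlt).2 _ d2 (P.zf_conn hc h2 hk0 he (by omega) hA); omega
      by_cases z2 : ∃ A, (P.con e).ZF A
      · obtain ⟨A, hA⟩ := z2
        have := (ih (P.del e) hlt).2 _ d1 (P.zf_conn' hc h2 hk0 he h6 hA); omega
      push Not at z1 z2
      have := ((ih (P.del e) hlt).1 _ d1 z1).1
      have := ((ih (P.con e) hlt).1 _ d2 z2).1
      rw [pow_succ 2 (k + 1)]; omega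
    · have h1 : P.E.card = 1 := by have := card_pos.2 hc.1; omega
      obtain ⟨e, he⟩ := card_eq_one.1 h1
      have he' : e ∈ P.E := by rw [he]; simp
      have e0 : P.E.erase e = ∅ := by rw [he]; simp
      have := P.r1 e; have := P.snn {e}
      unfold RP.dr at hk
      rw [he] at hk
      push_cast at hk
      obtain rfl : k = 0 := by omega
      rw [P.rec_F e he', (P.del e).F_empty e0, (P.con e).F_empty e0, e0, he, P.s0,
        show P.s {e} - 0 = 0 by omega, show 1 - P.r {e} = 0 by omega, sg_zero]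
      norm_num
  refine ⟨?_, hcb⟩
  intro k hk hz
  by_cases h0 : P.E.Nonempty
  swap
  · have h1 := not_nonempty_iff_eq_empty.1 h0
    unfold RP.dr at hk
    rw [h1, P.r0, P.s0] at hk
    obtain rfl : k = 0 := by omega
    rw [P.F_empty h1, h1]; simp
  have hfE : P.Fac P.E := ⟨Subset.refl _, by simp [P.r0], by simp [P.s0]⟩
  by_cases hc : P.Conn
  · have h1 := hcb k hk hc
    rcases k with _ | k
    · exact absurd ⟨hfE, h0, by unfold RP.dr at hk; omega⟩ (hz P.E)
    have h2 : (1 : ℤ) ≤ 2 ^ k := one_le_pow₀ (by norm_num)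
    rw [pow_succ, pow_succ] at h1
    rw [pow_succ]
    refine ⟨by omega, fun h3 x hx => ⟨P.E, hfE, hx, ?_⟩⟩
    have h4 : (2 : ℤ) ^ k = 1 := by omega
    have h5 : k = 0 := by
      by_contra h6
      have : (1 : ℤ) < 2 ^ k := one_lt_pow₀ (by norm_num) h6
      omega
    subst h5; unfold RP.dr at hk; omega
  · obtain ⟨A, a1, a2, a3⟩ := RP.not_conn h0 hc
    have b1 := P.fac_compl a1
    have hcard := card_sdiff_add_card_eq_card a1.1
    have := card_pos.2 a2; have := card_pos.2 a3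
    have nz : ∀ B, P.Fac B → ∀ C, ¬ (P.res B).ZF C := by
      intro B hB C hC
      obtain ⟨f1, _, f3, f4⟩ := P.fac_lift hB hC.1
      exact hz C ⟨f1, hC.2.1, by rw [← f3, ← f4]; exact hC.2.2⟩
    obtain ⟨i, hi⟩ := Int.eq_ofNat_of_zero_le (show 0 ≤ P.r A - P.s A by have := P.sler A; omega)
    obtain ⟨j, hj⟩ := Int.eq_ofNat_of_zero_le (show 0 ≤ P.r (P.E \ A) - P.s (P.E \ A) by
      have := P.sler (P.E \ A); omega)
    obtain rfl : k = i + j := by
      have := a1.2.1; have := a1.2.2; unfold RP.dr at hk; omega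
    obtain ⟨p1, p2⟩ := (ih (P.res A) (by rw [P.res_E a1.1]; omega)).1 i
      (by rw [P.dr_res a1.1, hi]) (nz A a1)
    obtain ⟨q1, q2⟩ := (ih (P.res (P.E \ A)) (by rw [P.res_E b1.1]; omega)).1 j
      (by rw [P.dr_res b1.1, hj]) (nz _ b1)
    have pi : (0 : ℤ) < 2 ^ i := by positivity
    have pj : (0 : ℤ) < 2 ^ j := by positivity
    rw [P.mul_F a1, pow_add]
    refine ⟨mul_le_mul p1 q1 pj.le (by omega), fun h3 x hx => ?_⟩
    have lift : ∀ B, P.Fac B → (∃ C, (P.res B).Fac C ∧ x ∈ C ∧ (P.res B).r C - (P.res B).s C = 1) →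
        ∃ C, P.Fac C ∧ x ∈ C ∧ P.r C - P.s C = 1 := by
      rintro B hB ⟨C, c1, c2, c3⟩
      obtain ⟨f1, _, f3, f4⟩ := P.fac_lift hB c1
      exact ⟨C, f1, c2, by rw [← f3, ← f4]; exact c3⟩
    by_cases hxA : x ∈ A
    · exact lift A a1 (p2 (by nlinarith) x (by rwa [P.res_E a1.1]))
    · exact lift _ b1 (q2 (by nlinarith) x (by rw [P.res_E b1.1]; exact mem_sdiff.2 ⟨hx, hxA⟩))

lemma RP.nz (P : RP α) : NZ P := (main_ind _ P rfl).1
lemma RP.cb (P : RP α) : CB P := (main_ind _ P rfl).2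

end Pool.Agent.H.MP_321d0a_co
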