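import Mathlib
import Pool.Agent.H.MP_321d0a_co.B

set_option autoImplicit false

namespace Pool.Agent.H.MP_321d0a_co
open Finset

variable {α : Type} [DecidableEq α]

namespace RP
variable (P : RP α)

def Par (e f : α) : Prop :=
  e ∈ P.E ∧ f ∈ P.E ∧ e ≠ f ∧ P.r {e} = 1 ∧ P.r {f} = 1 ∧ P.r {e, f} = 1

def Ser (e f : α) : Prop :=
  e ∈ P.E ∧ f ∈ P.E ∧ e ≠ f ∧ P.s (P.E.erase e) = P.s P.E ∧ P.s (P.E.erase f) = P.s P.E ∧
    P.s ((P.E.erase e).erase f) + 1 = P.s P.E

lemma par_dual (e f : α) : P.dual.Par e f ↔ P.Ser e f := by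
  unfold Par Ser
  refine and_congr_right fun he => and_congr_right fun hf => and_congr_right fun hne => ?_
  rw [P.dual_r1 e he, P.dual_r1 f hf]
  have h1 : ({e, f} : Finset α) ∩ P.E = {e, f} :=
    inter_eq_left.2 (insert_subset he (singleton_subset_iff.2 hf))
  have h2 : P.E \ {e, f} = (P.E.erase e).erase f := by
    ext x; simp only [mem_sdiff, mem_erase, mem_insert, mem_singleton]; tauto
  simp only [dual, h1, h2, card_pair hne]
  omega

lemma dual_s_sd {X : Finset α} (hX : X ⊆ P.E) :
    P.dual.s (P.E \ X) = P.dual.s P.E + P.r X - X.card := by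
  have e2 := card_sdiff_add_card_eq_card hX
  simp only [dual, Finset.sdiff_sdiff_eq_self hX, inter_self, sdiff_self, bot_eq_empty, P.r0,
    inter_eq_left.2 (sdiff_subset : P.E \ X ⊆ P.E)]
  omega

lemma ser_dual (e f : α) : P.dual.Ser e f ↔ P.Par e f := by
  unfold Par Ser
  refine and_congr_right fun he => and_congr_right fun hf => and_congr_right fun hne => ?_
  have h2 : P.E \ {e, f} = (P.E.erase e).erase f := by
    ext x; simp only [mem_sdiff, mem_erase, mem_insert, mem_singleton]; tauto
  have h3 := P.dual_s_sd (singleton_subset_iff.2 he)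
  have h4 := P.dual_s_sd (singleton_subset_iff.2 hf)
  have h5 := P.dual_s_sd (insert_subset he (singleton_subset_iff.2 hf))
  rw [sdiff_singleton_eq_erase, card_singleton] at h3 h4
  rw [h2, card_pair hne] at h5
  have hE : P.dual.E = P.E := rfl
  rw [hE]
  omega

def Irr : Prop := ∀ e f, ¬ P.Par e f ∧ ¬ P.Ser e f

lemma irr_dual (h : P.Irr) : P.dual.Irr := fun e f =>
  ⟨by rw [par_dual]; exact (h e f).2, by rw [ser_dual]; exact (h e f).1⟩

lemma par_step {e f : α} (h : P.Par e f) :
    P.F = (P.del f).F ∧ (P.del f).dr = P.dr ∧ (P.Conn → (P.del f).Conn) := by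
  obtain ⟨he, hf, hne, h1, h2, h3⟩ := h
  have key : ∀ X : Finset α, e ∈ X → P.r (insert f X) = P.r X ∧ P.s (insert f X) = P.s X := by
    intro X hX
    have := P.subr X {e, f} {e} (insert f X)
      (by intro x; simp only [mem_inter, mem_insert, mem_singleton]; rintro rfl; tauto)
      (by intro x; simp only [mem_union, mem_insert, mem_singleton]; tauto)
    have := P.c2 _ _ (subset_insert f X)
    have := P.ms (subset_insert f X)
    omega
  have hef : e ∈ P.E.erase f := mem_erase.2 ⟨hne, he⟩
  have k1 := key _ hef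
  rw [insert_erase hf] at k1
  refine ⟨?_, by rw [dr_del]; unfold dr; omega, fun hc => ⟨⟨e, hef⟩, ?_⟩⟩
  · rw [P.rec_F' f hf (by omega) (by omega), (P.con f).loop_F e hef, add_zero]
    simp only [con]; rw [pair_comm]; omega
  · have aux : ∀ A, (P.del f).Fac A → e ∈ A → A = P.E.erase f := by
      intro A hA heA
      rw [fac_del] at hA
      obtain ⟨a0, a1, a2⟩ := hA
      have k2 := key A heA
      have e1 : P.E \ (P.E.erase f \ A) = insert f A := by
        ext x; have := @a0 x
        simp only [mem_sdiff, mem_erase, mem_insert] at *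
        by_cases hx : x = f
        · subst hx; tauto
        · tauto
      have := P.conn_empty hc hf (X := P.E.erase f \ A) sdiff_subset (by rw [e1]; omega)
        (by rw [e1]; omega)
      exact Subset.antisymm a0 (sdiff_eq_empty_iff_subset.1 this)
    intro A hA hne'
    by_cases heA : e ∈ A
    · exact aux A hA heA
    · exfalso
      have h4 := aux _ ((P.del f).fac_compl hA) (mem_sdiff.2 ⟨hef, heA⟩)
      obtain ⟨a, ha⟩ := hne'
      have h5 : a ∈ P.E.erase f := hA.1 ha
      rw [← h4] at h5
      exact (mem_sdiff.1 h5).2 ha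

lemma ser_step {e f : α} (h : P.Ser e f) :
    P.F = (P.con f).F ∧ (P.con f).dr = P.dr ∧ (P.Conn → (P.con f).Conn) := by
  have hf : f ∈ P.E := h.2.1
  obtain ⟨h1, h2, h3⟩ := P.dual.par_step ((P.par_dual e f).2 h)
  rw [← P.con_dual f hf] at h1 h2 h3
  rw [F_dual, F_dual] at h1
  rw [dr_dual, dr_dual] at h2
  rw [conn_dual, conn_dual] at h3
  exact ⟨h1, h2, h3⟩

/-- facts about an element of a zero factor of a deletion -/
lemma zf_elt (hc : P.Conn) (h2 : 2 ≤ P.E.card) (hi : P.Irr) {e a : α} (he : e ∈ P.E)
    {A : Finset α} (hA : (P.del e).ZF A) (ha : a ∈ A) :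
    P.s {a} = 1 ∧ P.s ((P.E.erase e).erase a) = P.s P.E ∧
    P.r ((P.E.erase e).erase a) = P.r (P.E.erase e) ∧ P.r (P.E.erase a) = P.r P.E := by
  have hfa := hA.1
  rw [zf_del] at hA
  obtain ⟨⟨a0, a1, a2⟩, _, hz⟩ := hA
  obtain ⟨hae, haE⟩ := mem_erase.1 (a0 ha)
  have l1 := P.no_loop hc h2 haE
  have l2 := P.no_coloop hc h2 haE
  have l3 := P.no_coloop hc h2 he
  have z1 := P.zsub (singleton_subset_iff.2 ha) hz
  have z2 := P.zsub (erase_subset a A) hz
  have s1 : P.s ((P.E.erase e).erase a) = P.s P.E := by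
    by_contra h
    have := P.s_er a (P.E.erase e)
    have := P.ms (erase_subset a (P.E.erase e))
    exact (hi e a).2 ⟨he, haE, hae.symm, l3, l2, by omega⟩
  have t1 := (P.del e).sep_r hfa.2.1 _ (erase_subset a (P.E.erase e)) a0
  have t2 := (P.del e).sep_s hfa.2.2 _ (erase_subset a (P.E.erase e)) a0
  have e1 : ((P.E.erase e).erase a ∩ A).erase e = A.erase a := by
    ext x; have := @a0 x; simp only [mem_inter, mem_erase] at *; tauto
  have e2 : ((P.E.erase e).erase a \ A).erase e = P.E.erase e \ A := by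
    ext x; simp only [mem_sdiff, mem_erase]
    by_cases hx : x = a
    · subst hx; tauto
    · tauto
  have e3 : ((P.E.erase e).erase a).erase e = (P.E.erase e).erase a :=
    erase_eq_of_notMem (by simp)
  simp only [del, e1, e2, e3] at t1 t2
  have u1 := P.subr (P.E.erase a) (P.E.erase e) ((P.E.erase e).erase a) P.E
    (by intro x; simp only [mem_inter, mem_erase]; tauto)
    (by intro x; simp only [mem_union, mem_erase]
        by_cases hx : x = a
        · subst hx; tauto
        · tauto)
  have := P.mr (erase_subset a P.E)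
  refine ⟨by omega, s1, by omega, by omega⟩

end RP

lemma lemZ : ∀ (n : ℕ) (P : RP α) (k : ℕ), P.Conn → 2 ≤ P.E.card → P.Irr → P.dr = (k + 1 : ℕ) →
    P.F = 2 ^ (k + 2) - 2 → ∀ e ∈ P.E, ∀ A : Finset α, A.card ≤ n → ¬ (P.del e).ZF A := by
  intro n
  induction n with
  | zero =>
    intro P k _ _ _ _ _ e _ A hA h
    have := card_pos.2 h.2.1; omega
  | succ n ih =>
    intro P k hc h2 hi hk hF e he A hAn hA
    obtain ⟨a, ha⟩ := hA.2.1
    obtain ⟨f1, f2, f3, f4⟩ := P.zf_elt hc h2 hi he hA ha
    rw [RP.zf_del] at hA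
    obtain ⟨⟨a0, a1, a2⟩, _, hz⟩ := hA
    obtain ⟨hae, haE⟩ := mem_erase.1 (a0 ha)
    have l1 := P.no_loop hc h2 haE
    have l2 := P.no_coloop hc h2 haE
    have l3 := P.no_coloop hc h2 he
    have hrec := P.rec_F' a haE (by omega) l2
    have hcA : (A.erase a).card ≤ n := by rw [card_erase_of_mem ha]; omega
    unfold RP.dr at hk
    by_cases z1 : ∃ A', (P.del a).ZF A'
    · obtain ⟨A', hA'⟩ := z1
      have hA2 := hA'
      rw [RP.zf_del] at hA2
      obtain ⟨⟨b0, b1, b2⟩, _, hz'⟩ := hA2
      by_cases heA : e ∈ A'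
      · obtain ⟨_, _, g3, g4⟩ := P.zf_elt hc h2 hi haE hA' heA
        rw [erase_right_comm] at g3
        have i1 : (P.E.erase e \ A) ∩ (P.E.erase a \ A') ⊆ (P.E.erase e \ A) ∩ (P.E.erase a \ A') :=
          Subset.refl _
        have i2 : (P.E.erase e \ A) ∪ (P.E.erase a \ A') ⊆ (P.E.erase e \ A) ∪ (P.E.erase a \ A') :=
          Subset.refl _
        have i3 : A ∩ A' ⊆ A ∩ A' := Subset.refl _
        have i4 : P.E \ ((P.E.erase e \ A) ∩ (P.E.erase a \ A')) ⊆ A ∪ A' := by
          intro x; simp only [mem_union, mem_inter, mem_sdiff, mem_erase]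
          by_cases hx : x = a
          · subst hx; tauto
          · by_cases hx' : x = e
            · subst hx'; tauto
            · tauto
        have i5 : (P.E.erase e).erase a ⊆ ((P.E.erase e \ A) ∪ (P.E.erase a \ A')) ∪ (A ∩ A') := by
          intro x; simp only [mem_union, mem_inter, mem_sdiff, mem_erase]; tauto
        have := P.subr _ _ _ _ i1 i2; have := P.subs _ _ _ _ i1 i2
        have := P.subr _ _ _ _ i3 i4; have := P.subs _ _ _ _ i3 i4
        have := P.addr _ _ _ i5; have := P.adds _ _ _ i5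
        have h0 := P.conn_empty hc he (X := (P.E.erase e \ A) ∩ (P.E.erase a \ A'))
          (inter_subset_left.trans sdiff_subset) (by omega) (by omega)
        have hB : P.E.erase e \ A ⊆ A' := by
          intro x hx
          have := (eq_empty_iff_forall_notMem.1 h0) x
          simp only [mem_inter, mem_sdiff, mem_erase] at *
          by_cases hxa : x = a
          · subst hxa; tauto
          · tauto
        have := P.zsub hB hz'
        omega
      · have i1 : A' \ A ⊆ A' ∩ (P.E.erase e \ A) := by
          intro x; have := @b0 x; simp only [mem_inter, mem_sdiff, mem_erase] at *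
          by_cases hx' : x = e
          · subst hx'; tauto
          · tauto
        have i2 : A' ∪ (P.E.erase e \ A) ⊆ A' ∪ (P.E.erase e \ A) := Subset.refl _
        have i3 : (P.E.erase a \ A') ∩ A ⊆ (P.E.erase a \ A') ∩ A := Subset.refl _
        have i4 : P.E \ (A' \ A) ⊆ (P.E.erase a \ A') ∪ A := by
          intro x; simp only [mem_union, mem_sdiff, mem_erase]
          by_cases hx : x = a
          · subst hx; tauto
          · tauto
        have i5 : (P.E.erase e).erase a ⊆ (A' ∪ (P.E.erase e \ A)) ∪ ((P.E.erase a \ A') ∩ A) := by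
          intro x; simp only [mem_union, mem_inter, mem_sdiff, mem_erase]; tauto
        have := P.subs _ _ _ _ i1 i2
        have := P.subs _ _ _ _ i3 i4
        have := P.adds _ _ _ i5
        have := P.zsub (sdiff_subset : A' \ A ⊆ A') hz'
        have := P.c2 (P.E \ (A' \ A)) P.E sdiff_subset
        have h0 := P.conn_empty hc haE (X := A' \ A) (sdiff_subset.trans b0) (by omega) (by omega)
        have hsub : A' ⊆ A.erase a := by
          intro x hx
          exact mem_erase.2 ⟨(mem_erase.1 (b0 hx)).1, sdiff_eq_empty_iff_subset.1 h0 hx⟩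
        exact ih P k hc h2 hi hk hF a haE A' ((card_le_card hsub).trans hcA) hA'
    by_cases z2 : ∃ A', (P.con a).ZF A'
    · obtain ⟨A', hA'⟩ := z2
      have hA2 := hA'
      rw [RP.zf_con _ _ haE] at hA2
      obtain ⟨⟨b0, b1, b2⟩, _, hz'⟩ := hA2
      by_cases heA : e ∈ A'
      · have i1 : (P.E.erase e \ A) \ A' ⊆ (P.E \ A') ∩ (P.E.erase e \ A) := by
          intro x; simp only [mem_inter, mem_sdiff, mem_erase]; tauto
        have i2 : (P.E \ A') ∪ (P.E.erase e \ A) ⊆ (P.E \ A') ∪ (P.E.erase e \ A) := Subset.refl _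
        have i3 : insert a A' ∩ A ⊆ insert a A' ∩ A := Subset.refl _
        have i4 : P.E \ ((P.E.erase e \ A) \ A') ⊆ insert a A' ∪ A := by
          intro x; simp only [mem_union, mem_insert, mem_sdiff, mem_erase]
          by_cases hx' : x = e
          · subst hx'; tauto
          · tauto
        have i5 : {a} ⊆ ((P.E \ A') ∪ (P.E.erase e \ A)) ∩ (insert a A' ∩ A) := by
          have : a ∉ A' := fun h => notMem_erase a _ (b0 h)
          rw [singleton_subset_iff]
          simp only [mem_union, mem_inter, mem_insert, mem_sdiff]; tauto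
        have i6 : P.E.erase e ⊆ ((P.E \ A') ∪ (P.E.erase e \ A)) ∪ (insert a A' ∩ A) := by
          intro x; simp only [mem_union, mem_inter, mem_insert, mem_sdiff, mem_erase]; tauto
        have := P.subr _ _ _ _ i1 i2; have := P.subs _ _ _ _ i1 i2
        have := P.subr _ _ _ _ i3 i4; have := P.subs _ _ _ _ i3 i4
        have := P.subr _ _ _ _ i5 i6; have := P.subs _ _ _ _ i5 i6
        have h0 := P.conn_empty hc he (X := (P.E.erase e \ A) \ A')
          (sdiff_subset.trans sdiff_subset) (by omega) (by omega)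
        have hB : P.E \ A' ⊆ A := by
          intro x hx
          have := (eq_empty_iff_forall_notMem.1 h0) x
          simp only [mem_sdiff, mem_erase] at *
          by_cases hxa : x = e
          · subst hxa; tauto
          · tauto
        have := P.zsub hB hz
        omega
      · have i1 : A' \ A ⊆ insert a A' ∩ (P.E.erase e \ A) := by
          intro x; have := @b0 x; simp only [mem_inter, mem_insert, mem_sdiff, mem_erase] at *
          by_cases hx' : x = e
          · subst hx'; tauto
          · tauto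
        have i2 : insert a A' ∪ (P.E.erase e \ A) ⊆ insert a A' ∪ (P.E.erase e \ A) := Subset.refl _
        have i3 : (P.E \ A') ∩ A ⊆ (P.E \ A') ∩ A := Subset.refl _
        have i4 : P.E \ (A' \ A) ⊆ (P.E \ A') ∪ A := by
          intro x; simp only [mem_union, mem_sdiff]; tauto
        have i5 : {a} ⊆ (insert a A' ∪ (P.E.erase e \ A)) ∩ ((P.E \ A') ∩ A) := by
          have : a ∉ A' := fun h => notMem_erase a _ (b0 h)
          rw [singleton_subset_iff]
          simp only [mem_union, mem_inter, mem_insert, mem_sdiff]; tauto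
        have i6 : P.E.erase e ⊆ (insert a A' ∪ (P.E.erase e \ A)) ∪ ((P.E \ A') ∩ A) := by
          intro x; simp only [mem_union, mem_inter, mem_insert, mem_sdiff, mem_erase]; tauto
        have := P.subr _ _ _ _ i1 i2; have := P.subs _ _ _ _ i1 i2
        have := P.subr _ _ _ _ i3 i4; have := P.subs _ _ _ _ i3 i4
        have := P.subr _ _ _ _ i5 i6; have := P.subs _ _ _ _ i5 i6
        have h0 := P.conn_empty hc haE (X := A' \ A) (sdiff_subset.trans b0) (by omega) (by omega)
        have hsub : A' ⊆ A.erase a := by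
          intro x hx
          exact mem_erase.2 ⟨(mem_erase.1 (b0 hx)).1, sdiff_eq_empty_iff_subset.1 h0 hx⟩
        refine ih P.dual k (P.conn_dual.2 hc) h2 (P.irr_dual hi) (by rw [P.dr_dual]; exact hk)
          (by rw [P.F_dual]; exact hF) a haE A' ((card_le_card hsub).trans hcA) ?_
        rw [← P.con_dual a haE, RP.zf_dual]; exact hA'
    push Not at z1 z2
    have := ((P.del a).nz (k + 1) (by rw [P.dr_del]; omega) z1).1
    have := ((P.con a).nz (k + 1) (by rw [P.dr_con a haE]; omega) z2).1
    rw [pow_succ 2 (k + 1)] at hF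
    omega

lemma loops_zero (P : RP α) (S : Finset α) (h : ∀ e ∈ S, P.s {e} = 0) : P.s S = 0 := by
  induction S using Finset.induction_on with
  | empty => exact P.s0
  | insert a S _ ih =>
    have h1 := ih fun e he => h e (mem_insert_of_mem he)
    have h2 := h a (mem_insert_self _ _)
    have := P.adds {a} S (insert a S) (by intro x; simp)
    have := P.snn (insert a S)
    omega

lemma coloops_le (P : RP α) (G S : Finset α) (hS : S ⊆ G)
    (h : ∀ x ∈ S, P.r (G.erase x) + 1 ≤ P.r G) : P.r (G \ S) + S.card ≤ P.r G := by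
  induction S using Finset.induction_on with
  | empty => simp
  | insert a S ha ih =>
    have h1 := ih ((subset_insert _ _).trans hS) fun e he => h e (mem_insert_of_mem he)
    have h2 := h a (mem_insert_self _ _)
    have := P.subr (G \ S) (G.erase a) (G \ insert a S) G
      (by intro x; simp only [mem_inter, mem_sdiff, mem_erase, mem_insert]; tauto)
      (by intro x; simp only [mem_union, mem_sdiff, mem_erase]
          by_cases hx : x = a
          · subst hx; tauto
          · tauto)
    rw [card_insert_of_notMem ha]; push_cast; omega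

lemma all_loops (P : RP α) (k : ℕ) (hc : P.Conn) (h2 : 2 ≤ P.E.card) (hi : P.Irr)
    (hk : P.dr = (k + 1 : ℕ)) (hF : P.F = 2 ^ (k + 2) - 2) (hl : ∀ e ∈ P.E, P.s {e} = 0) :
    P.E.card = k + 2 ∧ ∀ X ⊆ P.E, P.r X = min (X.card : ℤ) (k + 1) ∧ P.s X = 0 := by
  have hs : ∀ X ⊆ P.E, P.s X = 0 := fun X hX => loops_zero P X fun e he => hl e (hX he)
  have key : ∀ e ∈ P.E, P.r (P.E.erase e) = (P.E.erase e).card ∧ P.r (P.E.erase e) = k + 1 := by
    intro e he
    have h := hl e he
    have h1 := P.no_loop hc h2 he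
    have h3 := P.no_coloop hc h2 he
    have h4 : P.r (P.E.erase e) = P.r P.E := by
      by_contra h5
      have := P.mr (erase_subset e P.E)
      exact P.conn_single hc h2 he (by omega) (by omega)
    have hrec := P.rec_F' e he (by omega) h3
    have hsE := hs P.E (Subset.refl _)
    unfold RP.dr at hk
    push_cast at hk
    have d1 : (P.del e).dr = (k + 1 : ℕ) := by rw [P.dr_del]; push_cast; omega
    have d2 : (P.con e).dr = k := by rw [P.dr_con e he]; omega
    have z2 : ∀ A, ¬ (P.con e).ZF A := by
      intro A hA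
      refine lemZ _ P.dual k (P.conn_dual.2 hc) h2 (P.irr_dual hi)
        (by rw [P.dr_dual]; unfold RP.dr; push_cast; omega)
        (by rw [P.F_dual]; exact hF) e he A le_rfl ?_
      rw [← P.con_dual e he, RP.zf_dual]; exact hA
    have p1 := ((P.con e).nz k d2 z2).1
    have pk : (0 : ℤ) < 2 ^ k := by positivity
    obtain ⟨q1, q2⟩ := (P.del e).nz (k + 1) d1 (P.loop_nozf hc he h)
    rcases P.loop_conn hc h2 he h with h6 | h6
    · have h9 : (2 : ℤ) ^ (k + 2) - 2 ≤ (P.del e).F := (P.del e).cb (k + 1) d1 h6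
      linarith
    · have := (P.con e).cb k d2 h6
      have q3 := q2 (by
        have e1 : (2 : ℤ) ^ (k + 2) = 2 ^ (k + 1) * 2 := pow_succ 2 (k + 1)
        generalize (2 : ℤ) ^ (k + 1) = t at *
        omega)
      have hco : ∀ x ∈ P.E.erase e, P.r ((P.E.erase e).erase x) + 1 ≤ P.r (P.E.erase e) := by
        intro x hx
        obtain ⟨A, a1, a2, a3⟩ := q3 x hx
        rw [RP.fac_del] at a1
        obtain ⟨a0, a1, _⟩ := a1
        have heA : e ∉ A := fun h => notMem_erase e _ (a0 h)
        simp only [RP.del, erase_eq_of_notMem heA] at a3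
        have := hs A (a0.trans (erase_subset _ _))
        have hA : A = {x} := by
          refine eq_singleton_iff_unique_mem.2 ⟨a2, fun y hy => ?_⟩
          by_contra hne
          have hxE := mem_of_mem_erase hx
          have hyE := mem_of_mem_erase (a0 hy)
          have l1 := P.no_loop hc h2 hxE
          have l2 := P.no_loop hc h2 hyE
          have := P.mr (show {y, x} ⊆ A from insert_subset hy (singleton_subset_iff.2 a2))
          have := P.mr (show {x} ⊆ ({y, x} : Finset α) by simp)
          exact (hi y x).1 ⟨hyE, hxE, hne, l2, l1, by omega⟩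
        subst hA
        rw [sdiff_singleton_eq_erase] at a1
        omega
      have h7 := coloops_le P _ _ (Subset.refl _) hco
      have h8 := P.c3' (empty_subset (P.E.erase e)) (erase_subset _ _)
      simp only [sdiff_self, bot_eq_empty, P.r0, card_empty] at h7 h8
      omega
  obtain ⟨e0, he0⟩ := hc.1
  have hcard : P.E.card = k + 2 := by
    have := key e0 he0
    rw [card_erase_of_mem he0] at this
    omega
  refine ⟨hcard, fun X hX => ⟨?_, hs X hX⟩⟩
  by_cases hXE : X = P.E
  · have := hs P.E (Subset.refl _)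
    unfold RP.dr at hk
    rw [hXE, hcard]; push_cast at hk ⊢; omega
  · obtain ⟨e, he, heX⟩ := exists_of_ssubset (Finset.ssubset_iff_subset_ne.2 ⟨hX, hXE⟩)
    have hsub : X ⊆ P.E.erase e := fun x hx => mem_erase.2 ⟨fun h => heX (h ▸ hx), hX hx⟩
    have := key e he
    have := P.c3' hsub (erase_subset _ _)
    have := P.c3' (empty_subset X) hX
    have := card_le_card hsub
    have := P.r0
    simp only [card_empty] at *
    omega

theorem classify (P : RP α) (k : ℕ) (hc : P.Conn) (hi : P.Irr)
    (hk : P.dr = (k + 1 : ℕ)) (hF : P.F = 2 ^ (k + 2) - 2) :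
    (P.E.card = 1 ∧ ∀ X ⊆ P.E, P.r X = X.card ∧ P.s X = 0) ∨
    (P.E.card = k + 2 ∧ ∀ X ⊆ P.E, P.r X = min (X.card : ℤ) (k + 1) ∧ P.s X = 0) ∨
    (P.E.card = k + 2 ∧ ∀ X ⊆ P.E, P.r X = X.card ∧ P.s X = min (X.card : ℤ) 1) := by
  by_cases h2 : 2 ≤ P.E.card
  swap
  · left
    have h1 : P.E.card = 1 := by have := card_pos.2 hc.1; omega
    obtain ⟨e, he⟩ := card_eq_one.1 h1
    refine ⟨h1, fun X hX => ?_⟩
    have := P.r1 e; have := P.snn {e}
    unfold RP.dr at hk
    rw [he] at hk hX
    rcases subset_singleton_iff.1 hX with rfl | rfl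
    · simp [P.r0, P.s0]
    · rw [card_singleton]; omega
  right
  have hor : ∀ e ∈ P.E, P.s {e} = 0 ∨ P.r (P.E.erase e) + 1 ≤ P.r P.E := by
    intro e he
    by_contra hn
    push Not at hn
    have h1 := P.no_loop hc h2 he
    have h3 := P.no_coloop hc h2 he
    have hrec := P.rec_F' e he (by omega) h3
    have z1 : ∀ A, ¬ (P.del e).ZF A := fun A => lemZ _ P k hc h2 hi hk hF e he A le_rfl
    have z2 : ∀ A, ¬ (P.con e).ZF A := by
      intro A hA
      refine lemZ _ P.dual k (P.conn_dual.2 hc) h2 (P.irr_dual hi) (by rw [P.dr_dual]; exact hk)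
        (by rw [P.F_dual]; exact hF) e he A le_rfl ?_
      rw [← P.con_dual e he, RP.zf_dual]; exact hA
    have := P.mr (erase_subset e P.E)
    have := P.sler {e}; have := P.snn {e}
    unfold RP.dr at hk
    have := ((P.del e).nz (k + 1) (by rw [P.dr_del]; omega) z1).1
    have := ((P.con e).nz (k + 1) (by rw [P.dr_con e he]; omega) z2).1
    rw [pow_succ 2 (k + 1)] at hF
    omega
  set L := P.E.filter (fun e => P.s {e} = 0) with hL
  have hLE : L ⊆ P.E := filter_subset _ _
  have h3 := loops_zero P L fun e he => (mem_filter.1 he).2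
  have h4 := coloops_le P P.E (P.E \ L) sdiff_subset (by
    intro x hx
    obtain ⟨hx1, hx2⟩ := mem_sdiff.1 hx
    exact (hor x hx1).resolve_left fun h => hx2 (mem_filter.2 ⟨hx1, h⟩))
  rw [Finset.sdiff_sdiff_eq_self hLE] at h4
  have h5 := P.c3' (empty_subset (P.E \ L)) sdiff_subset
  have h6 := P.ms (sdiff_subset : P.E \ L ⊆ P.E)
  rw [P.r0, card_empty] at h5
  have hfac : P.Fac L := P.fac_of_le hLE (by omega) (by omega)
  by_cases hne : L.Nonempty
  · left
    have h7 := hc.2 L hfac hne
    exact all_loops P k hc h2 hi hk hF fun e he => by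
      rw [← h7] at he; exact (mem_filter.1 he).2
  · right
    have h7 := not_nonempty_iff_eq_empty.1 hne
    obtain ⟨g1, g2⟩ := all_loops P.dual k (P.conn_dual.2 hc) h2 (P.irr_dual hi)
      (by rw [P.dr_dual]; exact hk) (by rw [P.F_dual]; exact hF) (by
        intro e he
        have h8 : e ∉ L := by rw [h7]; simp
        have h9 := (hor e he).resolve_left fun h => h8 (mem_filter.2 ⟨he, h⟩)
        have := P.r_er e P.E; have := P.r1 e
        rw [P.dual_s1 e he]; omega)
    have g1' : P.E.card = k + 2 := g1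
    refine ⟨g1', fun X hX => ?_⟩
    have g3 := g2 (P.E \ X) sdiff_subset
    have g4 := g2 P.E (Subset.refl _)
    have e2 := card_sdiff_add_card_eq_card hX
    simp only [RP.dual, Finset.sdiff_sdiff_eq_self hX, inter_self, sdiff_self, bot_eq_empty, P.r0,
      P.s0, inter_eq_left.2 (sdiff_subset : P.E \ X ⊆ P.E)] at g3 g4
    omega

end Pool.Agent.H.MP_321d0a_co
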